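import Pool.Agent.H29.UDP.TLat

/-!
# Row TRP: reflection positivity for the partition function on the torus
-/

set_option autoImplicit false

open MeasureTheory Filter Topology
open scoped ENNReal InnerProductSpace

namespace Pool.Agent.H46.UDP

open Pool.Agent.H29.UDP

section J

variable {d N : ℕ} [NeZero N] {J : (Fin d → ZMod N) → ℝ} (hJ : TorJ d N J)

include hJ

theorem flipS (s : Finset (Fin d)) (z : Fin d → ZMod N) :
    J (fun i => if i ∈ s then -z i else z i) = J z := by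
  classical
  induction s using Finset.induction_on with
  | empty => simp
  | insert j s hj ih =>
    rw [← ih, ← hJ.flip j (fun i => if i ∈ s then -z i else z i)]
    congr 1
    funext i
    by_cases h : i = j
    · subst h
      simp [hj]
    · rw [Function.update_of_ne h]
      simp [h]

theorem negJ (z : Fin d → ZMod N) : J (-z) = J z := by
  have h := flipS hJ Finset.univ z
  simp only [Finset.mem_univ, if_true] at h
  exact h

theorem subJ (x y : Fin d → ZMod N) : J (x - y) = J (y - x) := by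
  rw [← negJ hJ, neg_sub]

end J

section alg

variable {d N : ℕ} [NeZero N] (J : (Fin d → ZMod N) → ℝ)

/-- the quadratic form -/
noncomputable def q (u v : (Fin d → ZMod N) → ℝ) : ℝ := ∑ x, ∑ y, J (x - y) * u x * v y

/-- the total coupling -/
noncomputable def tj : ℝ := ∑ z, J z

/-- the one site exponent -/
noncomputable def rho (g b a u : ℝ) : ℝ :=
  -g * (u - a) ^ 4 - (b - tj J / 2) * (u - a) ^ 2 - tj J / 2 * u ^ 2

theorem q_symm (hJ : TorJ d N J) (u v : (Fin d → ZMod N) → ℝ) : q J u v = q J v u := by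
  unfold q
  rw [Finset.sum_comm]
  refine Finset.sum_congr rfl fun x _ => Finset.sum_congr rfl fun y _ => ?_
  rw [subJ hJ y x]
  ring

theorem sumLh (u h : (Fin d → ZMod N) → ℝ) :
    ∑ x, u x * Lh J h x = tj J * ∑ x, u x * h x - q J u h := by
  unfold q
  rw [Finset.mul_sum, ← Finset.sum_sub_distrib]
  refine Finset.sum_congr rfl fun x _ => ?_
  have h1 : ∑ y, J (x - y) = tj J := Equiv.sum_comp (Equiv.subLeft x) J
  unfold Lh
  have h2 : ∑ y, J (x - y) * (h x - h y) = (∑ y, J (x - y)) * h x - ∑ y, J (x - y) * h y := by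
    rw [Finset.sum_mul, ← Finset.sum_sub_distrib]
    exact Finset.sum_congr rfl fun y _ => by ring
  rw [h2, h1, mul_sub, Finset.mul_sum]
  have h3 : ∑ y, u x * (J (x - y) * h y) = ∑ y, J (x - y) * u x * h y :=
    Finset.sum_congr rfl fun y _ => by ring
  rw [h3]
  ring

theorem q_sub (u v : (Fin d → ZMod N) → ℝ) :
    q J (u - v) (u - v) = q J u u - q J u v - q J v u + q J v v := by
  unfold q
  rw [← Finset.sum_sub_distrib, ← Finset.sum_sub_distrib, ← Finset.sum_add_distrib]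
  refine Finset.sum_congr rfl fun x _ => ?_
  rw [← Finset.sum_sub_distrib, ← Finset.sum_sub_distrib, ← Finset.sum_add_distrib]
  refine Finset.sum_congr rfl fun y _ => ?_
  simp only [Pi.sub_apply]
  ring

theorem q_subl (u v w : (Fin d → ZMod N) → ℝ) : q J (u - v) w = q J u w - q J v w := by
  unfold q
  rw [← Finset.sum_sub_distrib]
  refine Finset.sum_congr rfl fun x _ => ?_
  rw [← Finset.sum_sub_distrib]
  refine Finset.sum_congr rfl fun y _ => ?_
  simp only [Pi.sub_apply]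
  ring

theorem expo (hJ : TorJ d N J) (g b : ℝ) (h ψ : (Fin d → ZMod N) → ℝ) :
    -gH (fun x y => J (x - y)) (fun _ => g) (fun _ => b) (ψ - h) -
      ∑ x, (ψ - h) x * Lh J h x - 1 / 2 * ∑ x, h x * Lh J h x =
    ∑ x, rho J g b (h x) (ψ x) + 1 / 2 * q J ψ ψ := by
  have h0 : gH (fun x y => J (x - y)) (fun _ => g) (fun _ => b) (ψ - h) =
      ∑ x, (g * (ψ x - h x) ^ 4 + b * (ψ x - h x) ^ 2) - 1 / 2 * q J (ψ - h) (ψ - h) := rfl
  rw [h0, sumLh, sumLh, q_sub, q_subl, q_symm J hJ h ψ]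
  have h1 : ∑ x, rho J g b (h x) (ψ x) = -∑ x, (g * (ψ x - h x) ^ 4 + b * (ψ x - h x) ^ 2) -
      tj J * ∑ x, (ψ - h) x * h x - 1 / 2 * (tj J * ∑ x, h x * h x) := by
    rw [Finset.mul_sum, Finset.mul_sum, Finset.mul_sum, ← Finset.sum_neg_distrib,
      ← Finset.sum_sub_distrib, ← Finset.sum_sub_distrib]
    refine Finset.sum_congr rfl fun x _ => ?_
    unfold rho
    simp only [Pi.sub_apply]
    ring
  rw [h1]
  ring

theorem Zt_eq (hJ : TorJ d N J) (g b : ℝ) (h : (Fin d → ZMod N) → ℝ) :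
    Zt J g b h = ∫ ψ : (Fin d → ZMod N) → ℝ,
      Real.exp (∑ x, rho J g b (h x) (ψ x) + 1 / 2 * q J ψ ψ) := by
  unfold Zt
  rw [← integral_sub_right_eq_self _ h]
  refine integral_congr_ae (Filter.Eventually.of_forall fun ψ => ?_)
  dsimp only
  rw [expo J hJ g b h ψ]

end alg

/-! ### The reflection -/

section refl

variable {d N : ℕ} [NeZero N] (j : Fin d) (c : ZMod N)

/-- the side of the reflection -/
def PP (x : Fin d → ZMod N) : Prop := 2 * (x j - c).val < N

instance : DecidablePred (PP j c) := fun _ => Nat.decLt _ _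

omit [NeZero N] in
theorem rfl_rfl (x : Fin d → ZMod N) : rfl' j c (rfl' j c x) = x := by
  unfold rfl'
  funext i
  by_cases h : i = j
  · subst h
    simp
  · simp [h]

theorem val_neg_one_sub (k : ZMod N) : (-1 - k).val = N - 1 - k.val := by
  have hN : 0 < N := Nat.pos_of_ne_zero (NeZero.ne N)
  have hk : k.val < N := ZMod.val_lt k
  have h1 : ((N - 1 - k.val : ℕ) : ZMod N) = -1 - k := by
    rw [Nat.cast_sub (by omega), Nat.cast_sub (by omega), ZMod.natCast_self, ZMod.natCast_zmod_val]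
    simp
  rw [← h1, ZMod.val_natCast, Nat.mod_eq_of_lt (by omega)]

theorem PP_rfl (hN : Even N) (x : Fin d → ZMod N) : PP j c (rfl' j c x) ↔ ¬ PP j c x := by
  unfold PP
  have h1 : rfl' j c x j - c = -1 - (x j - c) := by
    unfold rfl'
    simp
    ring
  rw [h1, val_neg_one_sub]
  have hk : (x j - c).val < N := ZMod.val_lt _
  obtain ⟨m, hm⟩ := hN
  omega

/-- the sites as two copies of one side -/
def ee (hN : Even N) : {x // PP j c x} ⊕ {x // PP j c x} ≃ (Fin d → ZMod N) where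
  toFun := Sum.elim (fun x => x.1) (fun x => rfl' j c x.1)
  invFun := fun x => if h : PP j c x then Sum.inl ⟨x, h⟩
    else Sum.inr ⟨rfl' j c x, (PP_rfl j c hN x).2 h⟩
  left_inv := by
    rintro (⟨x, hx⟩ | ⟨x, hx⟩)
    · simp [hx]
    · have h : ¬ PP j c (rfl' j c x) := by
        rw [PP_rfl j c hN x]
        exact not_not.2 hx
      simp [h, rfl_rfl]
  right_inv := by
    intro x
    by_cases h : PP j c x
    · simp [h]
    · simp [h, rfl_rfl]

end refl

/-! ### Gluing -/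

section main

variable {d N : ℕ} [NeZero N] (j : Fin d) (c : ZMod N)

/-- the configurations as pairs of configurations on one side -/
noncomputable def TT (hN : Even N) :
    ({x // PP j c x} → ℝ) × ({x // PP j c x} → ℝ) ≃ᵐ ((Fin d → ZMod N) → ℝ) :=
  (MeasurableEquiv.sumPiEquivProdPi (fun _ : {x // PP j c x} ⊕ {x // PP j c x} => ℝ)).symm.trans
    (MeasurableEquiv.piCongrLeft (fun _ => ℝ) (ee j c hN))

theorem TT_mp (hN : Even N) : MeasurePreserving (TT j c hN) volume volume :=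
  (volume_measurePreserving_sumPiEquivProdPi_symm
    (fun _ : {x // PP j c x} ⊕ {x // PP j c x} => ℝ)).trans
    (volume_measurePreserving_piCongrLeft (fun _ => ℝ) (ee j c hN))

theorem TT_l (hN : Even N) (z : ({x // PP j c x} → ℝ) × ({x // PP j c x} → ℝ))
    (x : {x // PP j c x}) : TT j c hN z x.1 = z.1 x :=
  MeasurableEquiv.piCongrLeft_apply_apply (ee j c hN) (β := fun _ => ℝ)
    ((MeasurableEquiv.sumPiEquivProdPi
      (fun _ : {x // PP j c x} ⊕ {x // PP j c x} => ℝ)).symm z) (Sum.inl x)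

theorem TT_r (hN : Even N) (z : ({x // PP j c x} → ℝ) × ({x // PP j c x} → ℝ))
    (x : {x // PP j c x}) : TT j c hN z (rfl' j c x.1) = z.2 x :=
  MeasurableEquiv.piCongrLeft_apply_apply (ee j c hN) (β := fun _ => ℝ)
    ((MeasurableEquiv.sumPiEquivProdPi
      (fun _ : {x // PP j c x} ⊕ {x // PP j c x} => ℝ)).symm z) (Sum.inr x)

theorem sumX (hN : Even N) (F : (Fin d → ZMod N) → ℝ) :
    ∑ x, F x = ∑ x : {x // PP j c x}, F x.1 + ∑ x : {x // PP j c x}, F (rfl' j c x.1) := by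
  rw [← (ee j c hN).sum_comp F, Fintype.sum_sum_type]
  rfl

variable {J : (Fin d → ZMod N) → ℝ} (hJ : TorJ d N J)

include hJ

theorem refl_sub (x y : Fin d → ZMod N) : J (rfl' j c x - rfl' j c y) = J (x - y) := by
  have h : rfl' j c x - rfl' j c y = Function.update (x - y) j (-(x - y) j) := by
    unfold rfl'
    funext i
    by_cases h : i = j
    · subst h
      simp
    · simp [h]
  rw [h, hJ.flip]

theorem K_symm (x y : Fin d → ZMod N) : J (x - rfl' j c y) = J (y - rfl' j c x) := by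
  rw [← flipS hJ (Finset.univ.erase j) (x - rfl' j c y)]
  congr 1
  funext i
  by_cases h : i = j
  · subst h
    simp [rfl']
    ring
  · simp [h, rfl']

omit hJ in
theorem sumP (cc : {x // PP j c x} → ℝ) (G : (Fin d → ZMod N) → ℝ) :
    ∑ x, (if h : PP j c x then cc ⟨x, h⟩ else 0) * G x = ∑ x : {x // PP j c x}, cc x * G x.1 := by
  rw [← Finset.sum_filter_of_ne (p := PP j c), Finset.sum_subtype (p := PP j c)]
  · refine Finset.sum_congr rfl fun x _ => ?_
    rw [dif_pos x.2]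
  · intro x
    simp
  · intro x _ hx
    by_contra h
    apply hx
    rw [dif_neg h, zero_mul]

theorem K_psd (cc : {x // PP j c x} → ℝ) :
    0 ≤ ∑ x, ∑ y, cc x * cc y * J (x.1 - rfl' j c y.1) := by
  set w : (Fin d → ZMod N) → ℝ := fun x => if h : PP j c x then cc ⟨x, h⟩ else 0 with hw
  set σ : (Fin d → ZMod N) ≃ (Fin d → ZMod N) :=
    { toFun := fun x => Function.update x j (x j + c)
      invFun := fun x => Function.update x j (x j - c)
      left_inv := fun x => by simp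
      right_inv := fun x => by simp } with hσ
  have hσj : ∀ x, σ x j = x j + c := fun x => by simp [hσ]
  have hσi : ∀ x i, i ≠ j → σ x i = x i := fun x i hi => by simp [hσ, hi]
  have h1 := hJ.rp j (fun x => w (σ x)) (by
    intro x hx
    have h2 : ¬ PP j c (σ x) := by
      unfold PP
      rw [hσj, add_sub_cancel_right]
      omega
    show (if h : PP j c (σ x) then cc ⟨σ x, h⟩ else 0) = 0
    rw [dif_neg h2])
  have h2 : ∀ x y : Fin d → ZMod N, (fun i => if i = j then x i + y i + 1 else x i - y i) =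
      σ x - rfl' j c (σ y) := by
    intro x y
    funext i
    by_cases h : i = j
    · subst h
      simp only [if_true, Pi.sub_apply, rfl', Function.update_self, hσj]
      ring
    · simp only [h, if_false, Pi.sub_apply, rfl', Function.update_of_ne h, hσi _ i h]
  simp only [h2] at h1
  rw [Equiv.sum_comp σ (fun x => ∑ y, w x * w (σ y) * J (x - rfl' j c (σ y)))] at h1
  have h3 : ∀ x, ∑ y, w x * w (σ y) * J (x - rfl' j c (σ y)) =
      w x * ∑ y : {x // PP j c x}, cc y * J (x - rfl' j c y.1) := by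
    intro x
    rw [Equiv.sum_comp σ (fun y => w x * w y * J (x - rfl' j c y)),
      ← sumP j c cc (fun y => J (x - rfl' j c y)), Finset.mul_sum]
    exact Finset.sum_congr rfl fun y _ => by rw [hw]; ring
  simp only [h3] at h1
  rw [sumP j c cc (fun x => ∑ y : {x // PP j c x}, cc y * J (x - rfl' j c y.1))] at h1
  refine h1.trans_eq (Finset.sum_congr rfl fun x _ => ?_)
  rw [Finset.mul_sum]
  exact Finset.sum_congr rfl fun y _ => by ring

omit hJ in
/-- the weight of one side -/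
noncomputable def AA (J : (Fin d → ZMod N) → ℝ) (g b : ℝ) (a z : {x // PP j c x} → ℝ) : ℝ :=
  Real.exp (∑ x, rho J g b (a x) (z x) + 1 / 2 * ∑ x, ∑ y, J (x.1 - y.1) * z x * z y)

theorem glue (hN : Even N) (g b : ℝ) (h : (Fin d → ZMod N) → ℝ)
    (z : ({x // PP j c x} → ℝ) × ({x // PP j c x} → ℝ)) :
    Real.exp (∑ x, rho J g b (h x) (TT j c hN z x) + 1 / 2 * q J (TT j c hN z) (TT j c hN z)) =
      AA j c J g b (fun x => h x.1) z.1 * AA j c J g b (fun x => h (rfl' j c x.1)) z.2 *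
        Real.exp (∑ x, ∑ y, J (x.1 - rfl' j c y.1) * z.1 x * z.2 y) := by
  unfold AA
  rw [← Real.exp_add, ← Real.exp_add]
  congr 1
  have hc : ∑ x : {x // PP j c x}, ∑ y : {x // PP j c x},
      J (rfl' j c x.1 - y.1) * z.2 x * z.1 y =
      ∑ x : {x // PP j c x}, ∑ y : {x // PP j c x}, J (x.1 - rfl' j c y.1) * z.1 x * z.2 y := by
    rw [Finset.sum_comm]
    refine Finset.sum_congr rfl fun x _ => Finset.sum_congr rfl fun y _ => ?_
    rw [subJ hJ (rfl' j c y.1) x.1]
    ring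
  unfold q
  simp only [sumX j c hN, TT_l, TT_r, refl_sub j c hJ, Finset.sum_add_distrib]
  rw [hc]
  ring

theorem Zt_glue (hN : Even N) (g b : ℝ) (h : (Fin d → ZMod N) → ℝ) :
    Zt J g b h = ∫ z : ({x // PP j c x} → ℝ) × ({x // PP j c x} → ℝ),
      AA j c J g b (fun x => h x.1) z.1 * AA j c J g b (fun x => h (rfl' j c x.1)) z.2 *
        Real.exp (∑ x, ∑ y, J (x.1 - rfl' j c y.1) * z.1 x * z.2 y) := by
  rw [Zt_eq J hJ g b h, ← (TT_mp j c hN).integral_comp']
  exact integral_congr_ae (Filter.Eventually.of_forall fun z => glue j c hJ hN g b h z)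

omit hJ in
theorem pt (g β M tJ b a u : ℝ) (hg : 0 < g) (hβ : β = |b - tJ / 2|) (ht : 0 ≤ tJ) :
    -g * (u - a) ^ 4 - (b - tJ / 2) * (u - a) ^ 2 - tJ / 2 * u ^ 2 + M * u ^ 2 ≤
      (g * a ^ 4 + 2 * β * a ^ 2 + 4 * (2 * β + M) ^ 2 / g) - g / 16 * u ^ 4 := by
  have hβ0 : 0 ≤ β := hβ ▸ abs_nonneg _
  have e1 : u ^ 4 ≤ 8 * ((u - a) ^ 4 + a ^ 4) := by
    nlinarith [sq_nonneg (u - a - a), sq_nonneg (u - a + a), sq_nonneg ((u - a) ^ 2 - a ^ 2),
      sq_nonneg ((u - a) ^ 2 + a ^ 2), mul_nonneg (sq_nonneg (u - a - a)) (sq_nonneg (u - a + a)),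
      mul_nonneg (sq_nonneg (u - a - a)) (sq_nonneg (u - a)),
      mul_nonneg (sq_nonneg (u - a - a)) (sq_nonneg a)]
  have e2 : (2 * β + M) * u ^ 2 ≤ g / 16 * u ^ 4 + 4 * (2 * β + M) ^ 2 / g := by
    have h : g / 16 * u ^ 4 + 4 * (2 * β + M) ^ 2 / g - (2 * β + M) * u ^ 2 =
        (g * u ^ 2 / 4 - 2 * (2 * β + M)) ^ 2 / g := by
      field_simp
      ring
    have h2 : 0 ≤ (g * u ^ 2 / 4 - 2 * (2 * β + M)) ^ 2 / g := by positivity
    linarith
  have e3 : -(b - tJ / 2) * (u - a) ^ 2 ≤ β * (u - a) ^ 2 :=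
    mul_le_mul_of_nonneg_right (hβ ▸ neg_le_abs _) (sq_nonneg _)
  have e4 : β * (u - a) ^ 2 ≤ β * (2 * (u ^ 2 + a ^ 2)) :=
    mul_le_mul_of_nonneg_left (by nlinarith [sq_nonneg (u + a)]) hβ0
  have e5 : 0 ≤ tJ / 2 * u ^ 2 := by positivity
  have e6 : g * u ^ 4 ≤ g * (8 * ((u - a) ^ 4 + a ^ 4)) := mul_le_mul_of_nonneg_left e1 hg.le
  nlinarith [e2, e3, e4, e5, e6]

theorem tj_nonneg : 0 ≤ tj J := Finset.sum_nonneg fun z _ => hJ.nonneg z

theorem half_q (z : {x // PP j c x} → ℝ) :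
    1 / 2 * ∑ x, ∑ y, J (x.1 - y.1) * z x * z y ≤
      tj J * (Fintype.card {x // PP j c x} : ℝ) / 2 * ∑ x, z x ^ 2 := by
  have h1 : ∀ x y : {x // PP j c x}, J (x.1 - y.1) * z x * z y ≤
      tj J * ((z x ^ 2 + z y ^ 2) / 2) := by
    intro x y
    have h2 : 0 ≤ J (x.1 - y.1) := hJ.nonneg _
    have h3 : J (x.1 - y.1) ≤ tj J :=
      Finset.single_le_sum (f := J) (fun z _ => hJ.nonneg z) (Finset.mem_univ (x.1 - y.1))
    have h4 : z x * z y ≤ (z x ^ 2 + z y ^ 2) / 2 := by nlinarith [sq_nonneg (z x - z y)]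
    have h5 : 0 ≤ (z x ^ 2 + z y ^ 2) / 2 := by positivity
    calc J (x.1 - y.1) * z x * z y = J (x.1 - y.1) * (z x * z y) := by ring
      _ ≤ J (x.1 - y.1) * ((z x ^ 2 + z y ^ 2) / 2) := mul_le_mul_of_nonneg_left h4 h2
      _ ≤ tj J * ((z x ^ 2 + z y ^ 2) / 2) := mul_le_mul_of_nonneg_right h3 h5
  have h2 : ∑ x : {x // PP j c x}, ∑ y : {x // PP j c x}, J (x.1 - y.1) * z x * z y ≤
      ∑ x : {x // PP j c x}, ∑ y : {x // PP j c x}, tj J * ((z x ^ 2 + z y ^ 2) / 2) :=
    Finset.sum_le_sum fun x _ => Finset.sum_le_sum fun y _ => h1 x y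
  have h3 : ∑ x : {x // PP j c x}, ∑ y : {x // PP j c x}, tj J * ((z x ^ 2 + z y ^ 2) / 2) =
      tj J * (Fintype.card {x // PP j c x} : ℝ) * ∑ x, z x ^ 2 := by
    simp only [← Finset.mul_sum, ← Finset.sum_div, Finset.sum_add_distrib, Finset.sum_const,
      Finset.card_univ, nsmul_eq_mul]
    ring
  rw [h3] at h2
  linarith

theorem Abd (g b : ℝ) (hg : 0 < g) (a : {x // PP j c x} → ℝ) :
    ∃ C : ℝ, 0 ≤ C ∧ ∀ z, |AA j c J g b a z| ≤ C * Real.exp (-(g / 16 * ∑ x, z x ^ 4)) := by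
  set M : ℝ := tj J * (Fintype.card {x // PP j c x} : ℝ) / 2 with hM
  set β : ℝ := |b - tj J / 2| with hβ
  refine ⟨Real.exp (∑ x, (g * a x ^ 4 + 2 * β * a x ^ 2 + 4 * (2 * β + M) ^ 2 / g)),
    (Real.exp_pos _).le, fun z => ?_⟩
  unfold AA
  rw [abs_of_pos (Real.exp_pos _), ← Real.exp_add]
  refine Real.exp_le_exp.2 ?_
  have h1 := half_q j c hJ z
  rw [← hM] at h1
  have h2 : ∑ x, rho J g b (a x) (z x) + M * ∑ x, z x ^ 2 ≤
      ∑ x, ((g * a x ^ 4 + 2 * β * a x ^ 2 + 4 * (2 * β + M) ^ 2 / g) - g / 16 * z x ^ 4) := by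
    rw [Finset.mul_sum, ← Finset.sum_add_distrib]
    exact Finset.sum_le_sum fun x _ => pt g β M (tj J) b (a x) (z x) hg hβ (tj_nonneg hJ)
  rw [Finset.sum_sub_distrib, ← Finset.mul_sum] at h2
  linarith

omit hJ in
theorem Ameas (g b : ℝ) (a : {x // PP j c x} → ℝ) : Measurable (AA j c J g b a) := by
  have h : Continuous (AA j c J g b a) := by
    unfold AA rho
    fun_prop
  exact h.measurable

end main

theorem pf_TRP (_hGLW : T_GLW) (hQPS : T_QPS) : T_TRP := by
  intro d N _ hN J hJ g b hg h j c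
  rw [Zt_glue j c hJ hN g b h, Zt_glue j c hJ hN g b (fun x => h (fdp j c x)),
    Zt_glue j c hJ hN g b (fun x => h (fdm j c x))]
  have e1 : ∀ x : {x // PP j c x}, fdp j c x.1 = x.1 := fun x => by
    unfold fdp
    rw [if_neg (not_le.2 x.2)]
  have e2 : ∀ x : {x // PP j c x}, fdp j c (rfl' j c x.1) = x.1 := fun x => by
    unfold fdp
    have h1 : ¬ PP j c (rfl' j c x.1) := by
      rw [PP_rfl j c hN]
      exact not_not.2 x.2
    rw [if_pos (not_lt.1 h1), rfl_rfl]
  have e3 : ∀ x : {x // PP j c x}, fdm j c x.1 = rfl' j c x.1 := fun x => by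
    unfold fdm
    rw [if_neg (not_le.2 x.2)]
  have e4 : ∀ x : {x // PP j c x}, fdm j c (rfl' j c x.1) = rfl' j c x.1 := fun x => by
    unfold fdm
    have h1 : ¬ PP j c (rfl' j c x.1) := by
      rw [PP_rfl j c hN]
      exact not_not.2 x.2
    rw [if_pos (not_lt.1 h1)]
  simp only [e1, e2, e3, e4]
  obtain ⟨C₁, hC₁, hA⟩ := Abd j c hJ g b hg (fun x => h x.1)
  obtain ⟨C₂, hC₂, hB⟩ := Abd j c hJ g b hg (fun x => h (rfl' j c x.1))
  refine (hQPS {x // PP j c x} (fun x y => J (x.1 - rfl' j c y.1))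
    (fun x y => K_symm j c hJ x.1 y.1) (fun cc => K_psd j c hJ cc)
    (AA j c J g b (fun x => h x.1)) (AA j c J g b (fun x => h (rfl' j c x.1))) (C₁ + C₂) (g / 16)
    (by positivity) (Ameas j c g b _) (Ameas j c g b _) (fun ψ => (hA ψ).trans ?_)
    (fun ψ => (hB ψ).trans ?_)).2.2
  · exact mul_le_mul_of_nonneg_right (by linarith) (Real.exp_pos _).le
  · exact mul_le_mul_of_nonneg_right (by linarith) (Real.exp_pos _).le

end Pool.Agent.H46.UDP
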